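import Pool.Agent.Y910.Z.Z2
import Pool.Agent.Y152.BD.Place

/-!
Places at which `t` is near to `a`, and the finiteness of the exceptional set.
-/

set_option autoImplicit false

open MvPolynomial

namespace Pool.Agent.Y910.Z

/-- If `t - a` is not a unit, there is a place at which `t` is near to `a`. -/
theorem exists_place {k : Type} [Field k] [Algebra k ℂ] (W : Set k) {t a : k} (ha : a ∈ W)
    (h : ¬ Bad W t a) {ρ : Type} (x : ρ → ℂ) (hx : AlgebraicIndependent k x) :
    ∃ V : ValuationSubring ℂ, V.valuation (algebraMap k ℂ (t - a)) < 1 ∧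
      (∀ z ∈ W, algebraMap k ℂ z ∈ V) ∧ ∀ j, x j ∈ V := by
  classical
  by_cases hta : t = a
  · refine ⟨⊤, ?_, fun _ _ => trivial, fun _ => trivial⟩
    rw [hta, sub_self, map_zero, map_zero]
    exact zero_lt_one
  let Λ : Subring k := Subring.closure (insert t W)
  have htΛ : t ∈ Λ := Subring.subset_closure (Set.mem_insert _ _)
  have haΛ : a ∈ Λ := Subring.subset_closure (Set.mem_insert_of_mem _ ha)
  let u : Λ := ⟨t - a, sub_mem htΛ haΛ⟩
  have hu : ¬ IsUnit u := by
    intro hu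
    apply h
    refine ⟨hta, ?_⟩
    obtain ⟨w, hw⟩ := hu.exists_right_inv
    have h1 : (t - a) * (w : k) = 1 := congrArg Subtype.val hw
    have h2 : (t - a)⁻¹ = (w : k) := inv_eq_of_mul_eq_one_right h1
    rw [h2]
    exact w.2
  obtain ⟨𝔭, h𝔭, hu𝔭⟩ := exists_max_ideal_of_mem_nonunits (show u ∈ nonunits Λ from hu)
  have hprime : 𝔭.IsPrime := h𝔭.isPrime
  let i1 : Algebra Λ ℂ := ((algebraMap k ℂ).comp Λ.subtype).toAlgebra
  have hmap : ∀ z : Λ, algebraMap Λ ℂ z = algebraMap k ℂ (z : k) := fun z => rfl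
  have hT : IsScalarTower Λ k ℂ := IsScalarTower.of_algebraMap_eq fun z => rfl
  have hinj : Function.Injective (algebraMap Λ k) := Subtype.val_injective
  have hx' : AlgebraicIndependent Λ x := hx.restrictScalars hinj
  obtain ⟨V, hV1, hV2⟩ := Pool.Agent.Y152.BD.exists_place_gauss 𝔭 x hx'
  refine ⟨V, ?_, fun z hz => ?_, fun j => ?_⟩
  · have h1 := (hV2 (C u)).2 (by
      rw [MvPolynomial.map_C, (Ideal.Quotient.eq_zero_iff_mem).2 hu𝔭, map_zero])
    rw [aeval_C, hmap] at h1
    exact h1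
  · have h1 := hV1 (C ⟨z, Subring.subset_closure (Set.mem_insert_of_mem _ hz)⟩)
    rw [aeval_C, hmap] at h1
    exact (ValuationSubring.valuation_le_one_iff _ _).1 h1
  · have h1 := hV1 (X j)
    rw [aeval_X] at h1
    exact (ValuationSubring.valuation_le_one_iff _ _).1 h1

/-- the `l` for which `t` is near to none of the elements of `A l` -/
theorem exists_good {k : Type} [Field k] {M L : ℕ} (W : Set k) (A : Fin M → Finset k) (t : k)
    (hL : ∀ I : Finset (Fin M), M ≤ I.card + L → ¬ ∀ l ∈ I, ∀ a ∈ A l, Bad W t a) :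
    ∃ f : Fin (L + 1) → Fin M, Function.Injective f ∧ ∀ l, ∃ a ∈ A (f l), ¬ Bad W t a := by
  classical
  let J : Finset (Fin M) := Finset.univ.filter fun l => ∃ a ∈ A l, ¬ Bad W t a
  by_cases hJ : L + 1 ≤ J.card
  · obtain ⟨J', hJ', hc⟩ := Finset.exists_subset_card_eq hJ
    refine ⟨fun i => (J'.equivFin.symm (Fin.cast hc.symm i) : Fin M), ?_, fun l => ?_⟩
    · intro a b hab
      have h1 := J'.equivFin.symm.injective (Subtype.ext hab)
      exact Fin.cast_injective _ h1
    · have h1 := hJ' (J'.equivFin.symm (Fin.cast hc.symm l)).2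
      exact (Finset.mem_filter.1 h1).2
  · exfalso
    refine hL Jᶜ ?_ ?_
    · rw [Finset.card_compl, Fintype.card_fin]
      omega
    · intro l hl a ha
      by_contra hb
      rw [Finset.mem_compl] at hl
      exact hl (Finset.mem_filter.2 ⟨Finset.mem_univ _, a, ha, hb⟩)

variable {k : Type} [Field k] [CharZero k] [IsAlgClosed k]

/-- exceptional elements of a finitely generated field -/
theorem finite_field [DecidableEq k] {M L : ℕ} (W F : Finset k) (A : Fin M → Finset k)
    (hA : ∀ I : Finset (Fin M), M ≤ I.card + L → 3 ≤ (I.biUnion A).card) (E : Set k)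
    (hE : ∀ t ∈ E, ¬ ∃ f : Fin (L + 1) → Fin M, Function.Injective f ∧
      ∀ l, ∃ a ∈ A (f l), ¬ Bad (W : Set k) t a) :
    {t : k | t ∈ Subfield.closure (F : Set k) ∧ t ∈ E}.Finite := by
  classical
  let U : Finset k := Finset.univ.biUnion A
  let P : Finset (k × k × k) := (U ×ˢ U ×ˢ U).filter fun p =>
    p.1 ≠ p.2.1 ∧ p.1 ≠ p.2.2 ∧ p.2.1 ≠ p.2.2
  have hfin : (⋃ p ∈ P, {t : k | t ∈ Subfield.closure (F : Set k) ∧ Bad (W : Set k) t p.1 ∧
      Bad (W : Set k) t p.2.1 ∧ Bad (W : Set k) t p.2.2}).Finite := by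
    refine Set.Finite.biUnion P.finite_toSet fun p hp => ?_
    have h1 := (Finset.mem_filter.1 hp).2
    exact fin_field W F h1.1 h1.2.1 h1.2.2
  refine hfin.subset ?_
  rintro t ⟨htF, htE⟩
  by_contra hcon
  apply hE t htE
  refine exists_good (W : Set k) A t fun I hI hbad => ?_
  apply hcon
  obtain ⟨a, b, c, ha, hb, hc, hab, hac, hbc⟩ := Finset.two_lt_card_iff.1
    (show 2 < (I.biUnion A).card from hA I hI)
  have hB : ∀ z ∈ I.biUnion A, Bad (W : Set k) t z := by
    intro z hz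
    obtain ⟨l, hl, hz⟩ := Finset.mem_biUnion.1 hz
    exact hbad l hl z hz
  have hU : ∀ z ∈ I.biUnion A, z ∈ U := by
    intro z hz
    obtain ⟨l, hl, hz⟩ := Finset.mem_biUnion.1 hz
    exact Finset.mem_biUnion.2 ⟨l, Finset.mem_univ _, hz⟩
  rw [Set.mem_iUnion₂]
  refine ⟨(a, b, c), Finset.mem_filter.2 ⟨?_, hab, hac, hbc⟩, htF, hB a ha, hB b hb, hB c hc⟩
  simp only [Finset.mem_product]
  exact ⟨hU a ha, hU b hb, hU c hc⟩

/-- exceptional elements of a finitely generated ring -/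
theorem finite_ring [DecidableEq k] {M L : ℕ} (W F : Finset k) (A : Fin M → Finset k)
    (hA : ∀ I : Finset (Fin M), M ≤ I.card + L → 2 ≤ (I.biUnion A).card) (E : Set k)
    (hE : ∀ t ∈ E, ¬ ∃ f : Fin (L + 1) → Fin M, Function.Injective f ∧
      ∀ l, ∃ a ∈ A (f l), ¬ Bad (W : Set k) t a) :
    {t : k | t ∈ Subring.closure (F : Set k) ∧ t ∈ E}.Finite := by
  classical
  let U : Finset k := Finset.univ.biUnion A
  let P : Finset (k × k) := (U ×ˢ U).filter fun p => p.1 ≠ p.2
  have hfin : (⋃ p ∈ P, {t : k | t ∈ Subring.closure (F : Set k) ∧ Bad (W : Set k) t p.1 ∧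
      Bad (W : Set k) t p.2}).Finite := by
    refine Set.Finite.biUnion P.finite_toSet fun p hp => ?_
    exact fin_ring W F (Finset.mem_filter.1 hp).2
  refine hfin.subset ?_
  rintro t ⟨htF, htE⟩
  by_contra hcon
  apply hE t htE
  refine exists_good (W : Set k) A t fun I hI hbad => ?_
  apply hcon
  obtain ⟨a, b, ha, hb, hab⟩ := Finset.one_lt_card_iff.1
    (show 1 < (I.biUnion A).card from hA I hI)
  have hB : ∀ z ∈ I.biUnion A, Bad (W : Set k) t z := by
    intro z hz
    obtain ⟨l, hl, hz⟩ := Finset.mem_biUnion.1 hz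
    exact hbad l hl z hz
  have hU : ∀ z ∈ I.biUnion A, z ∈ U := by
    intro z hz
    obtain ⟨l, hl, hz⟩ := Finset.mem_biUnion.1 hz
    exact Finset.mem_biUnion.2 ⟨l, Finset.mem_univ _, hz⟩
  rw [Set.mem_iUnion₂]
  refine ⟨(a, b), Finset.mem_filter.2 ⟨?_, hab⟩, htF, hB a ha, hB b hb⟩
  simp only [Finset.mem_product]
  exact ⟨hU a ha, hU b hb⟩

end Pool.Agent.Y910.Z
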