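import Mathlib

/-!
The integral closure of a finitely generated domain of characteristic zero is contained in a
finitely generated ring.
-/

set_option autoImplicit false

open MvPolynomial

namespace Pool.Agent.Y910.Z

/-- Integrality after multiplication by a power of `g`. -/
theorem isIntegral_pow_mul {A L : Type*} [CommRing A] [Field L] [Algebra A L] (g : A) (S : Set L)
    (hS : ∀ w ∈ S, IsIntegral A (algebraMap A L g * w)) {x : L}
    (hx : x ∈ Subring.closure S) : ∃ N : ℕ, IsIntegral A (algebraMap A L g ^ N * x) := by
  induction hx using Subring.closure_induction with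
  | mem w hw => exact ⟨1, by rw [pow_one]; exact hS w hw⟩
  | zero => exact ⟨0, by simpa using isIntegral_zero⟩
  | one => exact ⟨0, by simpa using isIntegral_one⟩
  | add a b _ _ ha hb =>
    obtain ⟨N, hN⟩ := ha
    obtain ⟨M, hM⟩ := hb
    refine ⟨N + M, ?_⟩
    have h1 : algebraMap A L g ^ (N + M) * (a + b) =
        algebraMap A L (g ^ M) * (algebraMap A L g ^ N * a) +
          algebraMap A L (g ^ N) * (algebraMap A L g ^ M * b) := by
      rw [map_pow, map_pow]
      ring
    rw [h1]
    exact (isIntegral_algebraMap.mul hN).add (isIntegral_algebraMap.mul hM)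
  | neg a _ ha =>
    obtain ⟨N, hN⟩ := ha
    refine ⟨N, ?_⟩
    rw [mul_neg]
    exact hN.neg
  | mul a b _ _ ha hb =>
    obtain ⟨N, hN⟩ := ha
    obtain ⟨M, hM⟩ := hb
    refine ⟨N + M, ?_⟩
    have h1 : algebraMap A L g ^ (N + M) * (a * b) =
        (algebraMap A L g ^ N * a) * (algebraMap A L g ^ M * b) := by ring
    rw [h1]
    exact hN.mul hM

/-- The same for elements which are integral over the ring generated by `S`. -/
theorem isIntegral_pow_mul' {A L : Type*} [CommRing A] [Field L] [Algebra A L] (g : A) (S : Set L)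
    (hS : ∀ w ∈ S, IsIntegral A (algebraMap A L g * w)) {x : L}
    (hx : IsIntegral (Subring.closure S) x) : ∃ N : ℕ, IsIntegral A (algebraMap A L g ^ N * x) := by
  classical
  obtain ⟨p, hp, hpx⟩ := hx
  have h1 : ∀ i : ℕ, ∃ N : ℕ, ∀ N', N ≤ N' →
      IsIntegral A (algebraMap A L g ^ N' * ((p.coeff i : Subring.closure S) : L)) := by
    intro i
    obtain ⟨N, hN⟩ := isIntegral_pow_mul g S hS (p.coeff i).2
    refine ⟨N, fun N' h => ?_⟩
    obtain ⟨c, rfl⟩ := Nat.exists_eq_add_of_le h
    have e : algebraMap A L g ^ (N + c) * ((p.coeff i : Subring.closure S) : L) =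
        algebraMap A L (g ^ c) * (algebraMap A L g ^ N * ((p.coeff i : Subring.closure S) : L)) := by
      rw [map_pow]
      ring
    rw [e]
    exact isIntegral_algebraMap.mul hN
  choose N hN using h1
  obtain ⟨M, hM⟩ : ∃ M, ∀ i ∈ Finset.range (p.natDegree + 1), N i ≤ M :=
    ⟨(Finset.range (p.natDegree + 1)).sup N, fun i hi => Finset.le_sup hi⟩
  refine ⟨M, ?_⟩
  by_cases hd : p.natDegree = 0
  · have : p = 1 := Polynomial.eq_one_of_monic_natDegree_zero hp hd
    rw [this, Polynomial.eval₂_one] at hpx
    exact absurd hpx one_ne_zero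
  -- `(g^M x)^n + ∑ g^(M (n - i)) a_i (g^M x)^i = 0`
  refine isIntegral_trans (A := integralClosure A L) (algebraMap A L g ^ M * x) ?_
  obtain ⟨n, hn⟩ : ∃ n, n = p.natDegree := ⟨_, rfl⟩
  have hcoef : ∀ i ∈ Finset.range n, ∃ c : integralClosure A L,
      (c : L) = algebraMap A L g ^ (M * (n - i)) * ((p.coeff i : Subring.closure S) : L) := by
    intro i hi
    rw [Finset.mem_range] at hi
    refine ⟨⟨_, ?_⟩, rfl⟩
    apply hN i
    calc N i ≤ M := hM i (Finset.mem_range.2 (by omega))
      _ ≤ M * (n - i) := Nat.le_mul_of_pos_right _ (by omega)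
  choose! c hc using hcoef
  refine ⟨Polynomial.X ^ n + ∑ i ∈ Finset.range n, Polynomial.C (c i) * Polynomial.X ^ i, ?_, ?_⟩
  · apply Polynomial.monic_X_pow_add
    refine (Polynomial.degree_sum_le _ _).trans_lt ?_
    refine (Finset.sup_lt_iff (a := (n : WithBot ℕ)) (WithBot.bot_lt_coe n)).2 ?_
    intro i hi
    refine (Polynomial.degree_C_mul_X_pow_le _ _).trans_lt ?_
    exact_mod_cast Finset.mem_range.1 hi
  · rw [Polynomial.eval₂_add, Polynomial.eval₂_pow, Polynomial.eval₂_X,
      Polynomial.eval₂_finsetSum]
    have e1 : ∑ i ∈ Finset.range n, Polynomial.eval₂ (algebraMap (integralClosure A L) L)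
        (algebraMap A L g ^ M * x) (Polynomial.C (c i) * Polynomial.X ^ i) =
        ∑ i ∈ Finset.range n, algebraMap A L g ^ (M * n) *
          (((p.coeff i : Subring.closure S) : L) * x ^ i) := by
      refine Finset.sum_congr rfl fun i hi => ?_
      rw [Polynomial.eval₂_mul, Polynomial.eval₂_C, Polynomial.eval₂_pow, Polynomial.eval₂_X]
      have e2 : algebraMap (integralClosure A L) L (c i) = (c i : L) := rfl
      rw [e2, hc i hi]
      have e3 : M * n = M * (n - i) + M * i := by
        rw [← mul_add]
        congr 1
        have := Finset.mem_range.1 hi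
        omega
      rw [e3, pow_add, mul_pow, ← pow_mul]
      ring
    rw [e1, ← Finset.mul_sum, mul_pow, ← pow_mul, ← mul_add]
    have e4 : x ^ n + ∑ i ∈ Finset.range n, ((p.coeff i : Subring.closure S) : L) * x ^ i = 0 := by
      have e5 := hpx
      rw [Polynomial.eval₂_eq_sum_range, Finset.sum_range_succ, ← hn] at e5
      have e6 : p.coeff n = 1 := by
        rw [hn]
        exact hp
      rw [e6, map_one, one_mul] at e5
      rw [← e5, add_comm]
      rfl
    rw [e4, mul_zero]

/-- The integral closure of the ring generated by a finite set of generators of the field `L` is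
contained in a finitely generated ring. -/
theorem exists_closure {L : Type} [Field L] [CharZero L] (S : Finset L)
    (hS : Subfield.closure (S : Set L) = ⊤) :
    ∃ T : Finset L, ∀ x : L, IsIntegral (Subring.closure (S : Set L)) x →
      x ∈ Subring.closure (T : Set L) := by
  classical
  have hfr : ∀ z : L, ∃ a ∈ Subring.closure (S : Set L), ∃ b ∈ Subring.closure (S : Set L),
      z = a / b := by
    intro z
    have hz : z ∈ Subfield.closure (S : Set L) := by rw [hS]; trivial
    rw [Subfield.mem_closure_iff] at hz
    obtain ⟨a, ha, b, hb, h⟩ := hz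
    exact ⟨a, ha, b, hb, h.symm⟩
  have hle : ∀ a ∈ Subring.closure (S : Set L), a ∈ Algebra.adjoin ℤ (S : Set L) := by
    intro a ha
    have h1 : Subring.closure (S : Set L) ≤ (Algebra.adjoin ℤ (S : Set L)).toSubring := by
      rw [Subring.closure_le]
      exact Algebra.subset_adjoin
    exact h1 ha
  have halg0 : Algebra.IsAlgebraic (Algebra.adjoin ℤ (S : Set L)) L := by
    refine ⟨fun z => ?_⟩
    obtain ⟨a, ha, b, hb, rfl⟩ := hfr z
    by_cases hb0 : b = 0
    · rw [hb0, div_zero]
      exact isAlgebraic_zero
    refine ⟨Polynomial.C (⟨b, hle b hb⟩ : Algebra.adjoin ℤ (S : Set L)) * Polynomial.X -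
      Polynomial.C (⟨a, hle a ha⟩ : Algebra.adjoin ℤ (S : Set L)), ?_, ?_⟩
    · intro h
      have h1 := congrArg (fun q => Polynomial.coeff q 1) h
      simp only [Polynomial.coeff_sub, Polynomial.coeff_C_mul, Polynomial.coeff_X_one, mul_one,
        Polynomial.coeff_C_succ, sub_zero, Polynomial.coeff_zero] at h1
      exact hb0 (congrArg Subtype.val h1)
    · rw [map_sub, map_mul, Polynomial.aeval_C, Polynomial.aeval_C, Polynomial.aeval_X]
      change b * (a / b) - a = 0
      field_simp
      ring
  obtain ⟨t, htS, ht⟩ := exists_isTranscendenceBasis_subset (R := ℤ) (S : Set L)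
  have htf : t.Finite := S.finite_toSet.subset htS
  have := htf.fintype
  let A := MvPolynomial t ℤ
  let _ : Algebra A L := (aeval ((↑) : t → L) : MvPolynomial t ℤ →ₐ[ℤ] L).toRingHom.toAlgebra
  have hinj : Function.Injective (algebraMap A L) := ht.1
  have hfaith : FaithfulSMul A L := (faithfulSMul_iff_algebraMap_injective A L).2 hinj
  have halg : Algebra.IsAlgebraic A L := by
    have h2 := ht.isAlgebraic
    refine ⟨fun z => ?_⟩
    obtain ⟨p, hp0, hp⟩ := h2.isAlgebraic z
    let e := ht.1.aevalEquiv
    let e' : Algebra.adjoin ℤ (Set.range ((↑) : t → L)) →+* A :=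
      (e.symm.toAlgHom : Algebra.adjoin ℤ (Set.range ((↑) : t → L)) →ₐ[ℤ] A).toRingHom
    refine ⟨p.map e', ?_, ?_⟩
    · intro h
      apply hp0
      refine Polynomial.map_injective e' ?_ (h.trans (Polynomial.map_zero _).symm)
      exact e.symm.injective
    · have hcomp : (algebraMap A L).comp e' =
          algebraMap (Algebra.adjoin ℤ (Set.range ((↑) : t → L))) L := by
        refine RingHom.ext fun w => ?_
        obtain ⟨q, rfl⟩ := e.surjective w
        change algebraMap A L (e.symm (e q)) = _
        rw [e.symm_apply_apply]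
        rfl
      rw [Polynomial.aeval_def, Polynomial.eval₂_map, hcomp, ← Polynomial.aeval_def]
      exact hp
  obtain ⟨g, hg0, hg⟩ := Algebra.IsAlgebraic.exists_integral_multiples A S
  let K := FractionRing A
  let _ : Algebra K L := FractionRing.liftAlgebra A L
  have : IsScalarTower A K L := inferInstance
  have halgK : Algebra.IsAlgebraic K L := by
    refine ⟨fun z => ?_⟩
    exact (halg.isAlgebraic z).extendScalars (IsFractionRing.injective A K)
  have hfd : FiniteDimensional K L := by
    have h1 : IntermediateField.adjoin K (S : Set L) = ⊤ := by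
      rw [eq_top_iff]
      intro z _
      have h2 : (⊤ : Subfield L) ≤ (IntermediateField.adjoin K (S : Set L)).toSubfield := by
        rw [← hS, Subfield.closure_le]
        exact IntermediateField.subset_adjoin K _
      exact h2 (Subfield.mem_top z)
    have h3 : FiniteDimensional K (IntermediateField.adjoin K (S : Set L)) :=
      IntermediateField.finiteDimensional_adjoin fun x _ => (halgK.isAlgebraic x).isIntegral
    rw [h1] at h3
    exact (IntermediateField.topEquiv (F := K) (E := L)).toLinearEquiv.finiteDimensional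
  have hfin : Module.Finite A (integralClosure A L) :=
    IsIntegralClosure.finite A K L (integralClosure A L)
  obtain ⟨B, hB⟩ := hfin.fg_top
  refine ⟨(t.toFinset ∪ B.image fun b : integralClosure A L => (b : L)) ∪
    {(algebraMap A L g)⁻¹}, fun x hx => ?_⟩
  obtain ⟨R, hR⟩ : ∃ R : Subring L, R = Subring.closure
    (((t.toFinset ∪ B.image fun b : integralClosure A L => (b : L)) ∪
      {(algebraMap A L g)⁻¹} : Finset L) : Set L) := ⟨_, rfl⟩
  rw [← hR]
  have hsub : ∀ z ∈ (t.toFinset ∪ B.image fun b : integralClosure A L => (b : L)) ∪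
      {(algebraMap A L g)⁻¹}, z ∈ R := by
    intro z hz
    rw [hR]
    exact Subring.subset_closure hz
  have hAR : ∀ a : A, algebraMap A L a ∈ R := by
    intro a
    induction a using MvPolynomial.induction_on with
    | C a =>
      have h1 : algebraMap A L (C a) = (a : L) := by
        change aeval ((↑) : t → L) (C a) = _
        rw [aeval_C]
        simp
      rw [h1]
      exact intCast_mem R a
    | add p q hp hq =>
      rw [map_add]
      exact add_mem hp hq
    | mul_X p i hp =>
      rw [map_mul]
      refine mul_mem hp ?_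
      have h1 : algebraMap A L (X i) = (i : L) := by
        change aeval ((↑) : t → L) (X i) = _
        rw [aeval_X]
      rw [h1]
      apply hsub
      simp
  have hg0' : algebraMap A L g ≠ 0 := fun h => hg0 (hinj (h.trans (map_zero _).symm))
  obtain ⟨N, hN⟩ := isIntegral_pow_mul' g (S : Set L) (fun w hw => by
    have := hg w hw
    rwa [Algebra.smul_def] at this) hx
  have h2 : (⟨_, hN⟩ : integralClosure A L) ∈ Submodule.span A (B : Set (integralClosure A L)) := by
    rw [hB]
    trivial
  have h3 : ∀ z : integralClosure A L, z ∈ Submodule.span A (B : Set (integralClosure A L)) →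
      (z : L) ∈ R := by
    intro z hz
    induction hz using Submodule.span_induction with
    | mem z hz =>
      apply hsub
      rw [Finset.mem_union, Finset.mem_union]
      exact Or.inl (Or.inr (Finset.mem_image.2 ⟨z, hz, rfl⟩))
    | zero => exact zero_mem R
    | add a b _ _ ha hb => exact add_mem ha hb
    | smul a z _ hz =>
      have h4 : ((a • z : integralClosure A L) : L) = algebraMap A L a * (z : L) := by
        rw [← Algebra.smul_def]
        rfl
      rw [h4]
      exact mul_mem (hAR a) hz
  have h4 := h3 _ h2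
  have h5 : x = (algebraMap A L g)⁻¹ ^ N * (algebraMap A L g ^ N * x) := by
    rw [← mul_assoc, inv_pow, inv_mul_cancel₀ (pow_ne_zero _ hg0'), one_mul]
  rw [h5]
  exact mul_mem (pow_mem (hsub _ (by simp)) _) h4

end Pool.Agent.Y910.Z
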