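import Pool.Agent.Y910.Z.Z1
import Pool.Agent.Y741.UnitNF

/-!
Finitely many elements of a finitely generated field (ring) are near to none of three (two) given
numbers.
-/

set_option autoImplicit false

open Pool.Agent.Y741

namespace Pool.Agent.Y910.Z

/-- `t - a` is invertible in the ring generated by `t` and `W` -/
def Bad {k : Type} [Field k] (W : Set k) (t a : k) : Prop :=
  t ≠ a ∧ (t - a)⁻¹ ∈ Subring.closure (insert t W)

theorem Bad.mono {k : Type} [Field k] {W W' : Set k} (h : W ⊆ W') {t a : k} (hb : Bad W t a) :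
    Bad W' t a :=
  ⟨hb.1, Subring.closure_mono (Set.insert_subset_insert h) hb.2⟩

/-- The elements of a finitely generated field of characteristic zero which are integral over a
finitely generated ring. -/
theorem exists_closure_val {k : Type} [Field k] [CharZero k] (S : Finset k) :
    ∃ T : Finset k, ∀ x ∈ Subfield.closure (S : Set k),
      (∀ V : ValuationSubring k, (∀ z ∈ S, z ∈ V) → x ∈ V) → x ∈ Subring.closure (T : Set k) := by
  classical
  obtain ⟨L, hL⟩ : ∃ L, L = Subfield.closure (S : Set k) := ⟨_, rfl⟩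
  have hSL : ∀ z ∈ S, z ∈ L := fun z hz => by
    rw [hL]
    exact Subfield.subset_closure hz
  let S' : Finset L := S.attach.image fun z => ⟨z.1, hSL z.1 z.2⟩
  have hS'im : (L.subtype '' (S' : Set L)) = (S : Set k) := by
    ext z
    simp only [S', Finset.coe_image, Set.image_image, Finset.mem_coe, Set.mem_image,
      Finset.mem_attach, true_and, Subtype.exists]
    constructor
    · rintro ⟨w, hw, rfl⟩
      exact hw
    · intro hz
      exact ⟨z, hz, rfl⟩
  have hS' : Subfield.closure (S' : Set L) = ⊤ := by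
    have h0 : (Subfield.closure (S' : Set L)).map L.subtype = L := by
      rw [RingHom.map_field_closure, hS'im, ← hL]
    rw [eq_top_iff]
    intro z _
    have h1 : (z : k) ∈ (Subfield.closure (S' : Set L)).map L.subtype := by
      rw [h0]
      exact z.2
    rw [Subfield.mem_map] at h1
    obtain ⟨w, hw, hwz⟩ := h1
    have h2 : w = z := Subtype.ext hwz
    rw [← h2]
    exact hw
  have hc : CharZero L := charZero_of_injective_algebraMap (R := ℚ) (algebraMap ℚ L).injective
  obtain ⟨T', hT'⟩ := exists_closure S' hS'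
  refine ⟨T'.image L.subtype, fun x hx hV => ?_⟩
  rw [← hL] at hx
  have h1 : x ∈ (integralClosure (Subring.closure (S : Set k)) k).toSubring := by
    rw [← iInf_valuationSubring_superset, Subring.mem_iInf]
    rintro ⟨V, hVS⟩
    exact hV V fun z hz => hVS hz
  have h2 : IsIntegral (Subring.closure (S : Set k)) x := h1
  have h3 : IsIntegral (Subring.closure (S' : Set L)) (⟨x, hx⟩ : L) := by
    obtain ⟨p, hp, hpx⟩ := h2
    have hmap : (Subring.closure (S' : Set L)).map L.subtype = Subring.closure (S : Set k) := by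
      rw [RingHom.map_closure, hS'im]
    have hlift : ∀ z : Subring.closure (S : Set k), ∃ w : Subring.closure (S' : Set L),
        ((w : L) : k) = z := by
      rintro ⟨z, hz⟩
      rw [← hmap] at hz
      obtain ⟨w, hw, hwz⟩ := hz
      exact ⟨⟨w, hw⟩, hwz⟩
    let f : Subring.closure (S' : Set L) →+* Subring.closure (S : Set k) :=
      ((L.subtype.comp (Subring.closure (S' : Set L)).subtype).codRestrict _ fun z => by
        rw [← hmap]
        exact ⟨z.1, z.2, rfl⟩)
    have hf : Function.Surjective f := by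
      intro z
      obtain ⟨w, hw⟩ := hlift z
      exact ⟨w, Subtype.ext hw⟩
    have hfi : Function.Injective f := by
      intro a b hab
      apply Subtype.ext
      apply Subtype.ext
      exact congrArg (fun z : Subring.closure (S : Set k) => (z : k)) hab
    let e := RingEquiv.ofBijective f ⟨hfi, hf⟩
    refine ⟨p.map (e.symm : _ ≃+* _).toRingHom, hp.map _, ?_⟩
    apply L.subtype.injective
    rw [map_zero, Polynomial.eval₂_map, Polynomial.hom_eval₂]
    rw [← hpx]
    congr 1
    refine RingHom.ext fun z => ?_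
    obtain ⟨w, rfl⟩ := e.surjective z
    change ((e.symm (e w) : Subring.closure (S' : Set L)) : k) = _
    rw [e.symm_apply_apply]
    rfl
  have h4 := hT' _ h3
  have h5 : (Subring.closure (T' : Set L)).map L.subtype =
      Subring.closure ((T'.image L.subtype : Finset k) : Set k) := by
    rw [RingHom.map_closure, Finset.coe_image]
  rw [← h5]
  exact ⟨_, h4, rfl⟩

variable {k : Type} [Field k] [CharZero k] [IsAlgClosed k]

/-- Elements of a finitely generated ring. -/
theorem fin_ring (W F : Finset k) {a b : k} (hab : a ≠ b) :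
    {t : k | t ∈ Subring.closure (F : Set k) ∧ Bad (W : Set k) t a ∧
      Bad (W : Set k) t b}.Finite := by
  classical
  obtain ⟨T, hT⟩ : ∃ T, T = W ∪ F ∪ {a, b, (b - a)⁻¹} := ⟨_, rfl⟩
  have hba : b - a ≠ 0 := sub_ne_zero.2 hab.symm
  refine ((uf (K := k) T).preimage (f := fun t => (t - a) / (b - a)) (fun x _ y _ h => ?_)).subset
    ?_
  · have h1 : (x - a) / (b - a) = (y - a) / (b - a) := h
    rw [div_left_inj' hba] at h1
    exact sub_left_injective h1
  · rintro t ⟨ht, h1, h2⟩
    obtain ⟨R, hR⟩ : ∃ R, R = Subring.closure (T : Set k) := ⟨_, rfl⟩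
    have hTR : ∀ z ∈ T, z ∈ R := fun z hz => by
      rw [hR]
      exact Subring.subset_closure hz
    have haR : a ∈ R := hTR a (by rw [hT]; simp)
    have hbR : b ∈ R := hTR b (by rw [hT]; simp)
    have hcR : (b - a)⁻¹ ∈ R := hTR _ (by rw [hT]; simp)
    have htR : t ∈ R := by
      rw [hR]
      refine Subring.closure_mono ?_ ht
      intro z hz
      rw [hT]
      simp only [Finset.coe_union, Set.mem_union]
      exact Or.inl (Or.inr hz)
    have hle : Subring.closure (insert t (W : Set k)) ≤ R := by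
      rw [Subring.closure_le]
      intro z hz
      rcases hz with rfl | hz
      · exact htR
      · apply hTR
        rw [hT]
        simp only [Finset.mem_union]
        exact Or.inl (Or.inl hz)
    have e1 : (1 : k) - (t - a) / (b - a) = -((t - b) / (b - a)) := by
      field_simp
      ring
    have e2 : (-((t - b) / (b - a)))⁻¹ = -((b - a) * (t - b)⁻¹) := by
      rw [inv_neg, inv_div, div_eq_mul_inv]
    change UnitPair (Subring.closure (T : Set k)) ((t - a) / (b - a))
    rw [← hR]
    refine ⟨div_ne_zero (sub_ne_zero.2 h1.1) hba, ?_, ?_, ?_, ?_, ?_⟩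
    · rw [e1]
      exact neg_ne_zero.2 (div_ne_zero (sub_ne_zero.2 h2.1) hba)
    · rw [div_eq_mul_inv]
      exact mul_mem (sub_mem htR haR) hcR
    · rw [inv_div, div_eq_mul_inv]
      exact mul_mem (sub_mem hbR haR) (hle h1.2)
    · rw [e1, div_eq_mul_inv]
      exact neg_mem (mul_mem (sub_mem htR hbR) hcR)
    · rw [e1, e2]
      exact neg_mem (mul_mem (sub_mem hbR haR) (hle h2.2))

omit [CharZero k] [IsAlgClosed k] in
/-- the differences are units at all valuations, or have the same pole -/
theorem ratio_unit (V : ValuationSubring k) {W : Set k} (hW : ∀ z ∈ W, z ∈ V) {t a c : k}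
    (ha : a ∈ V) (hc : c ∈ V) (h1 : Bad W t a) (h3 : Bad W t c) :
    (t - a) / (t - c) ∈ V ∧ (t - c) / (t - a) ∈ V := by
  have hta : t - a ≠ 0 := sub_ne_zero.2 h1.1
  have htc : t - c ≠ 0 := sub_ne_zero.2 h3.1
  by_cases ht : t ∈ V
  · have hle : Subring.closure (insert t W) ≤ V.toSubring := by
      rw [Subring.closure_le]
      rintro z (rfl | hz)
      · exact ht
      · exact hW z hz
    rw [div_eq_mul_inv, div_eq_mul_inv]
    exact ⟨mul_mem (sub_mem ht ha) (hle h3.2), mul_mem (sub_mem ht hc) (hle h1.2)⟩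
  · have hinv : ∀ d ∈ V, t - d ≠ 0 → (t - d)⁻¹ ∈ V := by
      intro d hd _
      rcases V.mem_or_inv_mem (t - d) with h | h
      · exfalso
        apply ht
        have := add_mem h hd
        rwa [sub_add_cancel] at this
      · exact h
    have e1 : (t - a) / (t - c) = 1 + (c - a) * (t - c)⁻¹ := by
      field_simp
      ring
    have e2 : (t - c) / (t - a) = 1 + (a - c) * (t - a)⁻¹ := by
      field_simp
      ring
    rw [e1, e2]
    exact ⟨add_mem (one_mem _) (mul_mem (sub_mem hc ha) (hinv c hc htc)),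
      add_mem (one_mem _) (mul_mem (sub_mem ha hc) (hinv a ha hta))⟩

/-- Elements of a finitely generated field. -/
theorem fin_field (W F : Finset k) {a b c : k} (hab : a ≠ b) (hac : a ≠ c) (hbc : b ≠ c) :
    {t : k | t ∈ Subfield.closure (F : Set k) ∧ Bad (W : Set k) t a ∧
      Bad (W : Set k) t b ∧ Bad (W : Set k) t c}.Finite := by
  classical
  obtain ⟨S, hS⟩ : ∃ S, S = W ∪ F ∪ {a, b, c, (b - a)⁻¹, (b - c)⁻¹, (c - a)⁻¹} := ⟨_, rfl⟩
  obtain ⟨T, hT⟩ := exists_closure_val S
  have hba : b - a ≠ 0 := sub_ne_zero.2 hab.symm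
  have hca : c - a ≠ 0 := sub_ne_zero.2 hac.symm
  have hcb : b - c ≠ 0 := sub_ne_zero.2 hbc
  have haS : a ∈ S := by rw [hS]; simp
  have hbS : b ∈ S := by rw [hS]; simp
  have hcS : c ∈ S := by rw [hS]; simp
  have hbaS : (b - a)⁻¹ ∈ S := by rw [hS]; simp
  have hcbS : (b - c)⁻¹ ∈ S := by rw [hS]; simp
  have hcaS : (c - a)⁻¹ ∈ S := by rw [hS]; simp
  have hWS : ∀ z ∈ (W : Set k), z ∈ S := by
    intro z hz
    rw [hS]
    simp only [Finset.mem_union]
    exact Or.inl (Or.inl hz)
  refine Set.Finite.of_injOn (f := fun t => (t - a) / (t - c) * ((b - c) / (b - a)))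
    (t := {x | UnitPair (Subring.closure (T : Set k)) x}) ?_ ?_ (uf (K := k) T)
  · rintro t ⟨htF, h1, h2, h3⟩
    have hta : t - a ≠ 0 := sub_ne_zero.2 h1.1
    have htb : t - b ≠ 0 := sub_ne_zero.2 h2.1
    have htc : t - c ≠ 0 := sub_ne_zero.2 h3.1
    have htL : t ∈ Subfield.closure (S : Set k) := by
      refine Subfield.closure_mono ?_ htF
      intro z hz
      rw [hS]
      simp only [Finset.coe_union, Set.mem_union]
      exact Or.inl (Or.inr hz)
    have hSL : ∀ z ∈ S, z ∈ Subfield.closure (S : Set k) := fun z hz =>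
      Subfield.subset_closure hz
    have e1 : (1 : k) - (t - a) / (t - c) * ((b - c) / (b - a)) =
        (t - b) / (t - c) * ((a - c) / (a - b)) := by
      have hab' : a - b ≠ 0 := sub_ne_zero.2 hab
      field_simp
      ring
    have key : ∀ {p q : k}, p - c ≠ 0 → q - p ≠ 0 → q - c ≠ 0 → p ∈ S → q ∈ S →
        (∀ V : ValuationSubring k, (∀ z ∈ S, z ∈ V) → (q - c)⁻¹ ∈ V ∧ (q - p)⁻¹ ∈ V) →
        Bad (W : Set k) t p →
        (t - p) / (t - c) * ((q - c) / (q - p)) ∈ Subring.closure (T : Set k) ∧
        ((t - p) / (t - c) * ((q - c) / (q - p)))⁻¹ ∈ Subring.closure (T : Set k) := by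
      intro p q hpc hqp hqc hp hq hinv hbad
      have hpL := hSL p hp
      have hqL := hSL q hq
      have hcL := hSL c hcS
      constructor
      · refine hT _ (mul_mem (div_mem (sub_mem htL hpL) (sub_mem htL hcL))
          (div_mem (sub_mem hqL hcL) (sub_mem hqL hpL))) fun V hV => ?_
        refine mul_mem (ratio_unit V (fun z hz => hV z (hWS z hz)) (hV p hp) (hV c hcS)
          hbad h3).1 ?_
        rw [div_eq_mul_inv]
        exact mul_mem (sub_mem (hV q hq) (hV c hcS)) (hinv V hV).2
      · rw [mul_inv, inv_div, inv_div]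
        refine hT _ (mul_mem (div_mem (sub_mem htL hcL) (sub_mem htL hpL))
          (div_mem (sub_mem hqL hpL) (sub_mem hqL hcL))) fun V hV => ?_
        refine mul_mem (ratio_unit V (fun z hz => hV z (hWS z hz)) (hV p hp) (hV c hcS)
          hbad h3).2 ?_
        rw [div_eq_mul_inv]
        exact mul_mem (sub_mem (hV q hq) (hV p hp)) (hinv V hV).1
    obtain ⟨k1, k2⟩ := key (p := a) (q := b) (sub_ne_zero.2 hac) hba hcb haS hbS
      (fun V hV => ⟨hV _ hcbS, hV _ hbaS⟩) h1
    obtain ⟨k3, k4⟩ := key (p := b) (q := a) hcb (sub_ne_zero.2 hab) (sub_ne_zero.2 hac) hbS haS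
      (fun V hV => ⟨by
        have h := V.toSubring.neg_mem (hV _ hcaS)
        have e : -(c - a)⁻¹ = (a - c)⁻¹ := by
          rw [← inv_neg, neg_sub]
        rw [e] at h
        exact h, by
        have h := V.toSubring.neg_mem (hV _ hbaS)
        have e : -(b - a)⁻¹ = (a - b)⁻¹ := by
          rw [← inv_neg, neg_sub]
        rw [e] at h
        exact h⟩) h2
    refine ⟨mul_ne_zero (div_ne_zero hta htc) (div_ne_zero hcb hba), ?_, k1, k2, ?_, ?_⟩
    · rw [e1]
      exact mul_ne_zero (div_ne_zero htb htc)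
        (div_ne_zero (sub_ne_zero.2 hac) (sub_ne_zero.2 hab))
    · rw [e1]
      exact k3
    · rw [e1]
      exact k4
  · rintro t ⟨-, -, -, h3⟩ t' ⟨-, -, -, h3'⟩ h
    have htc : t - c ≠ 0 := sub_ne_zero.2 h3.1
    have htc' : t' - c ≠ 0 := sub_ne_zero.2 h3'.1
    have h1 : (t - a) / (t - c) = (t' - a) / (t' - c) :=
      mul_right_cancel₀ (div_ne_zero hcb hba) h
    rw [div_eq_div_iff htc htc'] at h1
    have h2 : (c - a) * (t - t') = 0 := by linear_combination -h1
    rcases mul_eq_zero.1 h2 with h4 | h4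
    · exact absurd h4 hca
    · exact sub_eq_zero.1 h4

end Pool.Agent.Y910.Z
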