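import Pool.Agent.Y910.Z.Z3
import Pool.Agent.TH526.ZL.G
import Pool.Agent.TH526.ZL.L

/-!
Good prime ideals for the members of a family which are near to the degenerate ones, over finitely
generated rings.
-/

set_option autoImplicit false

open MvPolynomial Pool.Agent.TH526.ZL

namespace Pool.Agent.Y910.Z

/-- lifting a polynomial in several variables along a ring homomorphism -/
theorem exists_mv {A B : Type} [CommRing A] [CommRing B] (f : A →+* B) {σ : Type*}
    (P : MvPolynomial σ B) (h : ∀ u, ∃ a, f a = P.coeff u) :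
    ∃ P' : MvPolynomial σ A, MvPolynomial.map f P' = P := by
  classical
  choose a ha using h
  refine ⟨∑ u ∈ P.support, monomial u (a u), ?_⟩
  rw [map_sum]
  conv_rhs => rw [P.as_sum]
  refine Finset.sum_congr rfl fun u _ => ?_
  rw [map_monomial, ha]

/-- lifting a polynomial in one variable along a ring homomorphism -/
theorem exists_p1 {A B : Type} [CommRing A] [CommRing B] (f : A →+* B)
    (P : Polynomial B) (h : ∀ u, ∃ a, f a = P.coeff u) :
    ∃ P' : Polynomial A, P'.map f = P := by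
  classical
  choose a ha using h
  refine ⟨∑ u ∈ P.support, Polynomial.monomial u (a u), ?_⟩
  rw [Polynomial.map_sum]
  conv_rhs => rw [P.as_sum_support]
  refine Finset.sum_congr rfl fun u _ => ?_
  rw [Polynomial.map_monomial, ha]

variable {k : Type} [Field k]

/-- maximal ideals at which `t` is near to `a` -/
theorem exists_max (W : Set k) {t a : k} (ha : a ∈ W) (hta : t ≠ a) (h : ¬ Bad W t a) :
    ∃ 𝔭 : Ideal (Subring.closure (insert t W)), 𝔭.IsPrime ∧
      (⟨t - a, sub_mem (Subring.subset_closure (Set.mem_insert _ _))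
        (Subring.subset_closure (Set.mem_insert_of_mem _ ha))⟩ :
          Subring.closure (insert t W)) ∈ 𝔭 := by
  classical
  let u : Subring.closure (insert t W) := ⟨t - a, sub_mem
    (Subring.subset_closure (Set.mem_insert _ _))
    (Subring.subset_closure (Set.mem_insert_of_mem _ ha))⟩
  have hu : ¬ IsUnit u := by
    intro hu
    apply h
    refine ⟨hta, ?_⟩
    obtain ⟨w, hw⟩ := hu.exists_right_inv
    have h1 : (t - a) * (w : k) = 1 := congrArg Subtype.val hw
    have h2 : (t - a)⁻¹ = (w : k) := inv_eq_of_mul_eq_one_right h1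
    rw [h2]
    exact w.2
  obtain ⟨𝔭, h𝔭, hu𝔭⟩ := exists_max_ideal_of_mem_nonunits
    (show u ∈ nonunits (Subring.closure (insert t W)) from hu)
  exact ⟨𝔭, h𝔭.isPrime, hu𝔭⟩

/-- The certificate over a ring. -/
theorem cert_ring [Algebra k ℂ] [IsAlgClosed k] {σ : Type} [Fintype σ] {β : Type} [Finite β]
    (H : β → MvPolynomial σ k) (hs : ∀ y : σ → ℂ, (∀ b, aeval y (H b) = 0) → y = 0) :
    ∃ W : Set k, W.Finite ∧ ∀ Λ : Subring k, W ⊆ (Λ : Set k) →
      ∀ H' : β → MvPolynomial σ Λ, (∀ b, MvPolynomial.map Λ.subtype (H' b) = H b) →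
      ∀ (F : Type) [Field F] (φ : Λ →+* F) (y : σ → F), (∀ b, eval₂ φ y (H' b) = 0) →
        y = 0 := by
  classical
  have := Fintype.ofFinite β
  let J : Ideal (MvPolynomial σ k) := Ideal.span (Set.range H)
  have hrad : ∀ j, (X j : MvPolynomial σ k) ∈ J.radical := by
    intro j
    rw [← vanishingIdeal_zeroLocus_eq_radical (K := k), mem_vanishingIdeal_iff]
    intro y hy
    rw [mem_zeroLocus_iff] at hy
    have hmap : ∀ P : MvPolynomial σ k, aeval (fun j => algebraMap k ℂ (y j)) P =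
        algebraMap k ℂ (aeval y P) := by
      intro P
      exact MvPolynomial.aeval_algebraMap_apply ℂ y P
    have hy0 : (fun j => algebraMap k ℂ (y j)) = 0 := by
      apply hs
      intro b
      rw [hmap, hy _ (Ideal.subset_span ⟨b, rfl⟩), map_zero]
    rw [aeval_X]
    have h1 := congrFun hy0 j
    rw [Pi.zero_apply] at h1
    exact (map_eq_zero _).1 h1
  have hex : ∀ j, ∃ (m : ℕ) (c : β → MvPolynomial σ k), ∑ b, c b * H b = X j ^ m := by
    intro j
    obtain ⟨m, hm⟩ := hrad j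
    obtain ⟨c, hc⟩ := (Ideal.mem_span_range_iff_exists_fun).1 hm
    exact ⟨m, c, hc⟩
  choose m c hc using hex
  refine ⟨⋃ q : σ × β, coefsP (c q.1 q.2), Set.finite_iUnion fun q => coefsP_finite _, ?_⟩
  intro Λ hW H' hH' F _ φ y hy
  have hinj : Function.Injective (MvPolynomial.map (σ := σ) Λ.subtype) :=
    MvPolynomial.map_injective _ Subtype.val_injective
  have hc' : ∀ j b, ∃ c' : MvPolynomial σ Λ, MvPolynomial.map Λ.subtype c' = c j b := by
    intro j b
    refine exists_mv _ _ fun u => ?_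
    by_cases hu : (c j b).coeff u = 0
    · exact ⟨0, by rw [hu, map_zero]⟩
    · exact ⟨⟨_, hW (Set.mem_iUnion.2 ⟨(j, b), ⟨u, MvPolynomial.mem_support_iff.2 hu, rfl⟩⟩)⟩, rfl⟩
  choose c' hc' using hc'
  funext j
  have h1 : ∑ b, c' j b * H' b = X j ^ m j := by
    apply hinj
    rw [map_sum, map_pow, map_X, ← hc j]
    refine Finset.sum_congr rfl fun b _ => ?_
    rw [map_mul, hc', hH']
  have h2 := congrArg (eval₂Hom φ y) h1
  rw [map_sum, map_pow] at h2
  have h3 : ∑ b, (eval₂Hom φ y) (c' j b * H' b) = 0 := by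
    refine Finset.sum_eq_zero fun b _ => ?_
    rw [map_mul]
    have h4 : (eval₂Hom φ y) (H' b) = 0 := hy b
    rw [h4, mul_zero]
  rw [h3, eval₂Hom_X'] at h2
  exact eq_zero_of_pow_eq_zero h2.symm

/-- specialization and homomorphisms -/
theorem eval₂_spec {Λ : Type} [CommRing Λ] {F : Type} [CommRing F] (φ : Λ →+* F) {σ : Type*}
    (P : MvPolynomial σ (Polynomial Λ)) {t r : Λ} (h : φ (t - r) = 0) (y : σ → F) :
    eval₂ φ y (spec t P) = eval₂ φ y (spec r P) := by
  have h1 : φ.comp (Polynomial.evalRingHom t) = φ.comp (Polynomial.evalRingHom r) := by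
    refine Polynomial.ringHom_ext (fun a => ?_) ?_
    · simp
    · rw [map_sub, sub_eq_zero] at h
      simpa using h
  rw [spec, spec, eval₂_map, eval₂_map, h1]

theorem map_spec {Λ : Subring k} {σ : Type*} (P' : MvPolynomial σ (Polynomial Λ))
    (P : MvPolynomial σ (Polynomial k))
    (hP : MvPolynomial.map (Polynomial.mapRingHom Λ.subtype) P' = P) (t : Λ) :
    MvPolynomial.map Λ.subtype (spec t P') = spec (t : k) P := by
  have h1 : Λ.subtype.comp (Polynomial.evalRingHom t) =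
      (Polynomial.evalRingHom (t : k)).comp (Polynomial.mapRingHom Λ.subtype) := by
    refine Polynomial.ringHom_ext (fun a => ?_) ?_
    · simp
    · simp
  rw [← hP, spec, spec, MvPolynomial.map_map, MvPolynomial.map_map, h1]

/-- The members of a family near the degenerate ones. -/
theorem nearR [Algebra k ℂ] [IsAlgClosed k] {κ ι : Type} [Finite κ] [Finite ι]
    {N n m M : ℕ} (G : κ → MvPolynomial (Fin (N + 1)) (Polynomial k))
    (A B : ι → MvPolynomial (Fin (N + 1)) (Polynomial k))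
    (R : Fin n → Polynomial (Polynomial k)) (c : ι → Polynomial k) (ρ : Fin M → k)
    (hc : ∀ i, c i ≠ 0)
    (hdis : ∀ l, ∀ I : Finset ι, I.card = m + 1 → ∀ y : Fin (N + 1) → ℂ,
      (∀ i, aeval y (spec (ρ l) (G i)) = 0) →
      (∀ i ∈ I, aeval y (spec (ρ l) (A i)) * aeval y (spec (ρ l) (B i)) = 0) → y = 0)
    (Γ : Set k) (hΓ : Γ.Finite) :
    ∃ W : Set k, W.Finite ∧ Γ ⊆ W ∧ (∀ l, ρ l ∈ W) ∧ ∀ Λ : Subring k, W ⊆ (Λ : Set k) →
      ∃ (G' : κ → MvPolynomial (Fin (N + 1)) (Polynomial Λ))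
        (A' B' : ι → MvPolynomial (Fin (N + 1)) (Polynomial Λ))
        (R' : Fin n → Polynomial (Polynomial Λ)) (c' : ι → Polynomial Λ),
        (∀ i, MvPolynomial.map (Polynomial.mapRingHom Λ.subtype) (G' i) = G i) ∧
        (∀ i, MvPolynomial.map (Polynomial.mapRingHom Λ.subtype) (A' i) = A i) ∧
        (∀ i, MvPolynomial.map (Polynomial.mapRingHom Λ.subtype) (B' i) = B i) ∧
        (∀ i, (R' i).map (Polynomial.mapRingHom Λ.subtype) = R i) ∧
        (∀ i, (c' i).map Λ.subtype = c i) ∧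
        (∀ i u w, ((R' i).coeff u).coeff w ≠ 0 → IsUnit (((R' i).coeff u).coeff w)) ∧
        ∀ (l : Fin M) (r t : Λ), (r : k) = ρ l →
          (∀ (F : Type) [Field F] (φ : Λ →+* F), φ (t - r) = 0 → ∀ I : Finset ι,
            I.card = m + 1 → ∀ y : Fin (N + 1) → F, y ≠ 0 →
            (∀ i, eval₂ φ y (spec t (G' i)) = 0) →
            ∃ i ∈ I, eval₂ φ y (spec t (A' i)) * eval₂ φ y (spec t (B' i)) ≠ 0) ∧
          ∀ 𝔭 : Ideal Λ, 𝔭.IsPrime → t - r ∈ 𝔭 → ∀ i, ∃ b : Λ, b ∉ 𝔭 ∧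
            (c' i).eval t = b * (t - r) ^ (c i).rootMultiplicity (ρ l) := by
  classical
  have hfi := Fintype.ofFinite ι
  have hcert := fun (l : Fin M) (I : {I : Finset ι // I.card = m + 1}) =>
    cert_ring (k := k) (fun b : κ ⊕ I.1 => Sum.elim (fun i => spec (ρ l) (G i))
        (fun i : I.1 => spec (ρ l) (A i) * spec (ρ l) (B i)) b) (fun y hb =>
      hdis l I.1 I.2 y (fun i => hb (Sum.inl i)) fun i hi => by
        have := hb (Sum.inr ⟨i, hi⟩)
        simp only [Sum.elim_inr] at this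
        rwa [map_mul] at this)
  choose WC hWC hWC' using hcert
  have hq : ∀ (l : Fin M) (i : ι), ∃ q : Polynomial k,
      c i = (Polynomial.X - Polynomial.C (ρ l)) ^ (c i).rootMultiplicity (ρ l) * q ∧
        q.eval (ρ l) ≠ 0 := by
    intro l i
    obtain ⟨q, hq1, hq2⟩ :=
      Polynomial.exists_eq_pow_rootMultiplicity_mul_and_not_dvd (c i) (hc i) (ρ l)
    refine ⟨q, hq1, fun h => hq2 ?_⟩
    rw [Polynomial.dvd_iff_isRoot]
    exact h
  choose q hq1 hq2 using hq
  let WR : Set k := ⋃ i, ⋃ u ∈ ((R i).support : Set ℕ), coefs1 ((R i).coeff u)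
  have hWR : WR.Finite := Set.finite_iUnion fun i =>
    (R i).support.finite_toSet.biUnion fun u _ => coefs1_finite _
  let W1 : Set k := (⋃ p : Fin M × {I : Finset ι // I.card = m + 1}, WC p.1 p.2) ∪
    ((⋃ i, coefsT (A i)) ∪ ((⋃ i, coefsT (B i)) ∪ ((⋃ i, coefsT (G i)) ∪
    ((⋃ i, coefs1 (c i)) ∪ ((⋃ p : Fin M × ι, coefs1 (q p.1 p.2)) ∪
    ((Set.range fun p : Fin M × ι => ((q p.1 p.2).eval (ρ p.1))⁻¹) ∪
    (WR ∪ ((fun z => z⁻¹) '' WR ∪ (Set.range ρ ∪ Γ)))))))))
  have hW1 : W1.Finite := by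
    refine Set.Finite.union (Set.finite_iUnion fun p => hWC _ _) ?_
    refine Set.Finite.union (Set.finite_iUnion fun i => coefsT_finite _) ?_
    refine Set.Finite.union (Set.finite_iUnion fun i => coefsT_finite _) ?_
    refine Set.Finite.union (Set.finite_iUnion fun i => coefsT_finite _) ?_
    refine Set.Finite.union (Set.finite_iUnion fun i => coefs1_finite _) ?_
    refine Set.Finite.union (Set.finite_iUnion fun p => coefs1_finite _) ?_
    refine Set.Finite.union (Set.finite_range _) ?_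
    refine Set.Finite.union hWR ?_
    refine Set.Finite.union (hWR.image _) ?_
    exact Set.Finite.union (Set.finite_range _) hΓ
  refine ⟨W1, hW1, fun z hz => by
    refine Or.inr (Or.inr (Or.inr (Or.inr (Or.inr (Or.inr (Or.inr (Or.inr (Or.inr (Or.inr ?_)))))))))
    exact hz, fun l => by
    refine Or.inr (Or.inr (Or.inr (Or.inr (Or.inr (Or.inr (Or.inr (Or.inr (Or.inr (Or.inl ?_)))))))))
    exact ⟨l, rfl⟩, fun Λ hΛ => ?_⟩
  have m0 : ∀ l I, WC l I ⊆ (Λ : Set k) := fun l I z hz =>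
    hΛ (Or.inl (Set.mem_iUnion.2 ⟨(l, I), hz⟩))
  have mA : ∀ i, ∀ z ∈ coefsT (A i), z ∈ Λ := fun i z hz =>
    hΛ (Or.inr (Or.inl (Set.mem_iUnion.2 ⟨i, hz⟩)))
  have mB : ∀ i, ∀ z ∈ coefsT (B i), z ∈ Λ := fun i z hz =>
    hΛ (Or.inr (Or.inr (Or.inl (Set.mem_iUnion.2 ⟨i, hz⟩))))
  have mG : ∀ i, ∀ z ∈ coefsT (G i), z ∈ Λ := fun i z hz =>
    hΛ (Or.inr (Or.inr (Or.inr (Or.inl (Set.mem_iUnion.2 ⟨i, hz⟩)))))
  have mc : ∀ i, ∀ z ∈ coefs1 (c i), z ∈ Λ := fun i z hz =>
    hΛ (Or.inr (Or.inr (Or.inr (Or.inr (Or.inl (Set.mem_iUnion.2 ⟨i, hz⟩))))))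
  have mq : ∀ l i, ∀ z ∈ coefs1 (q l i), z ∈ Λ := fun l i z hz =>
    hΛ (Or.inr (Or.inr (Or.inr (Or.inr (Or.inr (Or.inl (Set.mem_iUnion.2 ⟨(l, i), hz⟩)))))))
  have mqi : ∀ l i, ((q l i).eval (ρ l))⁻¹ ∈ Λ := fun l i =>
    hΛ (Or.inr (Or.inr (Or.inr (Or.inr (Or.inr (Or.inr (Or.inl ⟨(l, i), rfl⟩)))))))
  have mR : ∀ z ∈ WR, z ∈ Λ := fun z hz =>
    hΛ (Or.inr (Or.inr (Or.inr (Or.inr (Or.inr (Or.inr (Or.inr (Or.inl hz))))))))
  have mRi : ∀ z ∈ WR, z⁻¹ ∈ Λ := fun z hz =>
    hΛ (Or.inr (Or.inr (Or.inr (Or.inr (Or.inr (Or.inr (Or.inr (Or.inr (Or.inl ⟨z, hz, rfl⟩)))))))))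
  -- lifts
  have lT : ∀ P : MvPolynomial (Fin (N + 1)) (Polynomial k), (∀ z ∈ coefsT P, z ∈ Λ) →
      ∃ P' : MvPolynomial (Fin (N + 1)) (Polynomial Λ),
        MvPolynomial.map (Polynomial.mapRingHom Λ.subtype) P' = P := by
    intro P hP
    refine exists_mv _ _ fun u => ?_
    by_cases hu : P.coeff u = 0
    · exact ⟨0, by rw [hu, map_zero]⟩
    obtain ⟨p', hp'⟩ := exists_p1 Λ.subtype (P.coeff u) fun i => by
      by_cases hi : (P.coeff u).coeff i = 0
      · exact ⟨0, by rw [hi, map_zero]⟩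
      · refine ⟨⟨_, hP _ ?_⟩, rfl⟩
        exact Set.mem_biUnion (Finset.mem_coe.2 (MvPolynomial.mem_support_iff.2 hu))
          ⟨i, Polynomial.mem_support_iff.2 hi, rfl⟩
    exact ⟨p', hp'⟩
  have l1 : ∀ p : Polynomial k, (∀ z ∈ coefs1 p, z ∈ Λ) →
      ∃ p' : Polynomial Λ, p'.map Λ.subtype = p := by
    intro p hp
    refine exists_p1 _ _ fun i => ?_
    by_cases hi : p.coeff i = 0
    · exact ⟨0, by rw [hi, map_zero]⟩
    · exact ⟨⟨_, hp _ ⟨i, Polynomial.mem_support_iff.2 hi, rfl⟩⟩, rfl⟩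
  have hRmem : ∀ i u w, ((R i).coeff u).coeff w ≠ 0 → ((R i).coeff u).coeff w ∈ WR := by
    intro i u w h
    have hu : (R i).coeff u ≠ 0 := by
      intro h0
      rw [h0, Polynomial.coeff_zero] at h
      exact h rfl
    exact Set.mem_iUnion.2 ⟨i, Set.mem_biUnion
      (Finset.mem_coe.2 (Polynomial.mem_support_iff.2 hu))
      ⟨w, Polynomial.mem_support_iff.2 h, rfl⟩⟩
  have lR : ∀ i, ∃ P' : Polynomial (Polynomial Λ),
      P'.map (Polynomial.mapRingHom Λ.subtype) = R i := by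
    intro i
    refine exists_p1 _ _ fun u => ?_
    obtain ⟨p', hp'⟩ := exists_p1 Λ.subtype ((R i).coeff u) fun w => by
      by_cases hw : ((R i).coeff u).coeff w = 0
      · exact ⟨0, by rw [hw, map_zero]⟩
      · exact ⟨⟨_, mR _ (hRmem i u w hw)⟩, rfl⟩
    exact ⟨p', hp'⟩
  choose G' hG' using fun i => lT (G i) (mG i)
  choose A' hA' using fun i => lT (A i) (mA i)
  choose B' hB' using fun i => lT (B i) (mB i)
  choose R' hR' using lR
  choose c' hc' using fun i => l1 (c i) (mc i)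
  choose q' hq' using fun l i => l1 (q l i) (mq l i)
  refine ⟨G', A', B', R', c', hG', hA', hB', hR', hc', fun i u w h => ?_, fun l r t hr => ⟨?_, ?_⟩⟩
  · have h1 : ((((R' i).coeff u).coeff w : Λ) : k) = ((R i).coeff u).coeff w := by
      rw [← hR' i, Polynomial.coeff_map, Polynomial.coe_mapRingHom, Polynomial.coeff_map]
      rfl
    have h2 : ((R i).coeff u).coeff w ≠ 0 := by
      rw [← h1]
      exact fun h0 => h (Subtype.ext h0)
    refine IsUnit.of_mul_eq_one (⟨_, mRi _ (hRmem i u w h2)⟩ : Λ) (Subtype.ext ?_)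
    change ((((R' i).coeff u).coeff w : Λ) : k) * (((R i).coeff u).coeff w)⁻¹ = 1
    rw [h1]
    exact mul_inv_cancel₀ h2
  · intro F _ φ hφ I hI y hy0 hy
    by_contra hcon
    push Not at hcon
    apply hy0
    refine hWC' l ⟨I, hI⟩ Λ (m0 _ _)
      (fun b : κ ⊕ I => Sum.elim (fun i => spec r (G' i))
        (fun i : I => spec r (A' i) * spec r (B' i)) b) ?_ F φ y ?_
    · rintro (i | i)
      · simp only [Sum.elim_inl]
        rw [map_spec (G' i) (G i) (hG' i), hr]
      · simp only [Sum.elim_inr]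
        rw [map_mul, map_spec (A' i) (A i) (hA' i), map_spec (B' i) (B i) (hB' i), hr]
    · rintro (i | i)
      · simp only [Sum.elim_inl]
        rw [← eval₂_spec φ _ hφ]
        exact hy i
      · simp only [Sum.elim_inr]
        rw [eval₂_mul, ← eval₂_spec φ _ hφ, ← eval₂_spec φ (B' i) hφ]
        exact hcon i i.2
  · intro 𝔭 h𝔭 htr i
    refine ⟨(q' l i).eval t, fun hmem => ?_, ?_⟩
    · obtain ⟨z, hz⟩ := Polynomial.sub_dvd_eval_sub t r (q' l i)
      have h1 : (q' l i).eval r ∈ 𝔭 := by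
        have h2 : (q' l i).eval r = (q' l i).eval t - (t - r) * z := by
          rw [← hz, sub_sub_cancel]
        rw [h2]
        exact 𝔭.sub_mem hmem (𝔭.mul_mem_right _ htr)
      have h3 : (((q' l i).eval r : Λ) : k) = (q l i).eval (ρ l) := by
        rw [← hr, ← hq' l i, Polynomial.eval_map]
        exact (Polynomial.eval₂_at_apply Λ.subtype r).symm
      have h4 : IsUnit ((q' l i).eval r) := by
        refine IsUnit.of_mul_eq_one (⟨_, mqi l i⟩ : Λ) (Subtype.ext ?_)
        change (((q' l i).eval r : Λ) : k) * ((q l i).eval (ρ l))⁻¹ = 1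
        rw [h3]
        exact mul_inv_cancel₀ (hq2 l i)
      exact h𝔭.ne_top (Ideal.eq_top_of_isUnit_mem _ h1 h4)
    · apply Subtype.ext
      have h1 : (((c' i).eval t : Λ) : k) = (c i).eval (t : k) := by
        rw [← hc' i, Polynomial.eval_map]
        exact (Polynomial.eval₂_at_apply Λ.subtype t).symm
      have h2 : (((q' l i).eval t : Λ) : k) = (q l i).eval (t : k) := by
        rw [← hq' l i, Polynomial.eval_map]
        exact (Polynomial.eval₂_at_apply Λ.subtype t).symm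
      change (((c' i).eval t : Λ) : k) = (((q' l i).eval t : Λ) : k) * ((t : k) - (r : k)) ^ _
      rw [h1, h2, hr]
      have h3 := congrArg (Polynomial.eval (t : k)) (hq1 l i)
      rw [Polynomial.eval_mul, Polynomial.eval_pow, Polynomial.eval_sub, Polynomial.eval_X,
        Polynomial.eval_C] at h3
      rw [h3, mul_comm]

end Pool.Agent.Y910.Z
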